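import Pool.Agent.helper11.VQ.Spec3c
import Pool.Agent.helper11.RPQ.DET

/-!
# Row vq:DTV (MP_07c750_an): the deterministic conclusion
-/

set_option autoImplicit false

open scoped MatrixGroups ContDiff Topology UpperHalfPlane ComplexConjugate ENNReal
open UpperHalfPlane MeasureTheory Filter Set

namespace Pool.Agent.VQ

open Pool.Agent.RS
open Pool.Agent.RPQ (CEig mean VV IsOp IsMul OProj wrd PJ nst mks MO Net Cl CkB PN upd Eqd)

theorem DTV_adm {C C' : ℝ} {A : Prm} (h : Adm C A) (hC' : C' ≤ C) (h1 : 1 ≤ C') : Adm C' A := by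
  have e3 := h.e3
  have hz0 : 0 < A.z := lt_of_lt_of_le (mul_pos (by linarith) e3) h.z
  have hz1 : 0 < A.z1 := lt_of_lt_of_le (mul_pos (by linarith) hz0) h.z1
  have hz2 : 0 < A.z2 := lt_of_lt_of_le (mul_pos (by linarith) hz1) h.z2
  refine ⟨e3, h.m, ?_, ?_, ?_, ?_, h.tu⟩
  · exact (mul_le_mul_of_nonneg_right hC' e3.le).trans h.z
  · exact (mul_le_mul_of_nonneg_right hC' hz0.le).trans h.z1
  · exact (mul_le_mul_of_nonneg_right hC' hz1.le).trans h.z2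
  · refine (mul_le_mul_of_nonneg_right hC' ?_).trans h.up
    positivity

theorem DTV_okd {Γ : Subgroup SL(2, ℝ)} {δ δ' : ℝ} {B : ℕ → ℝ} {D : Dyn} (h : OKD Γ δ B D) (hδ : δ ≤ δ') : OKD Γ δ' B D :=
  ⟨⟨h.pot.smooth, h.pot.inv, fun g v hv n hn => (h.pot.near g v hv n hn).trans hδ, h.pot.bd⟩, h.fl0, h.out, h.dfl, h.cfl, h.Y0, h.P0,
    h.S0, h.a0, h.dY, h.dP, h.dS, h.da, h.cY, h.cP, h.cS, h.ca⟩

theorem DTV_small (d ε : ℝ) (hd : 0 < d) (hε : 0 < ε) : ∃ R5 : ℝ, ∀ R : ℝ, R5 ≤ R → R ^ (-d) ≤ ε := by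
  have h1 : Tendsto (fun R : ℝ => R ^ (-d)) atTop (𝓝 0) := tendsto_rpow_neg_atTop hd
  have h2 := h1.eventually (gt_mem_nhds hε)
  obtain ⟨R5, h3⟩ := eventually_atTop.1 h2
  exact ⟨R5, fun R hR => (h3 R hR).le⟩

theorem DTV_mass {Y : Type} [MeasurableSpace Y] {μ : Measure Y} (a q : Y → ℝ) (ha : Measurable a) (hqi : Integrable q μ)
    (m e : ℝ) (hq0 : ∀ y, 0 ≤ q y) (hd : ∀ y, |a y - m| ≤ 1) (he : 0 ≤ e) (S W : Set Y) (hS : MeasurableSet S)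
    (hW : MeasurableSet W) (hSW : {y | e ≤ |a y - m|} ∩ W ⊆ S) :
    |(∫ y, a y * q y ∂μ) - m * ∫ y, q y ∂μ| ≤ e * (∫ y, q y ∂μ) + (∫ y in S, q y ∂μ) + ∫ y in Wᶜ, q y ∂μ := by
  have hdi : Integrable (fun y => (a y - m) * q y) μ := by
    refine Integrable.mono' hqi ((ha.sub_const m).aestronglyMeasurable.mul hqi.aestronglyMeasurable) (Eventually.of_forall fun y => ?_)
    rw [norm_mul, Real.norm_eq_abs, Real.norm_eq_abs, abs_of_nonneg (hq0 y)]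
    exact mul_le_of_le_one_left (hq0 y) (hd y)
  have hai : Integrable (fun y => a y * q y) μ := by
    have : (fun y => a y * q y) = fun y => (a y - m) * q y + m * q y := by
      funext y
      ring
    rw [this]
    exact hdi.add (hqi.const_mul m)
  have h1 : (∫ y, a y * q y ∂μ) - m * ∫ y, q y ∂μ = ∫ y, (a y - m) * q y ∂μ := by
    rw [← integral_const_mul, ← integral_sub hai (hqi.const_mul m)]
    refine integral_congr_ae (Eventually.of_forall fun y => ?_)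
    show a y * q y - m * q y = (a y - m) * q y
    ring
  have i1 := hqi.const_mul e
  have i2 := hqi.indicator hS
  have i3 := hqi.indicator hW.compl
  have i12 : Integrable (fun y => e * q y + S.indicator q y) μ := i1.add i2
  have i123 : Integrable (fun y => e * q y + S.indicator q y + Wᶜ.indicator q y) μ := i12.add i3
  rw [h1, ← integral_indicator hS, ← integral_indicator hW.compl, ← integral_const_mul, ← integral_add i1 i2,
    ← integral_add i12 i3]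
  refine (abs_integral_le_integral_abs).trans (integral_mono hdi.abs i123 fun y => ?_)
  show |(a y - m) * q y| ≤ e * q y + Set.indicator S q y + Set.indicator Wᶜ q y
  rw [abs_mul, abs_of_nonneg (hq0 y)]
  have n1 : 0 ≤ Set.indicator S q y := Set.indicator_nonneg (fun y _ => hq0 y) y
  have n2 : 0 ≤ Set.indicator Wᶜ q y := Set.indicator_nonneg (fun y _ => hq0 y) y
  have n3 := mul_nonneg he (hq0 y)
  have n4 := mul_le_of_le_one_left (hq0 y) (hd y)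
  by_cases hy : e ≤ |a y - m|
  · by_cases hw : y ∈ W
    · have hs : y ∈ S := hSW ⟨hy, hw⟩
      rw [Set.indicator_of_mem hs]
      linarith
    · have hw' : y ∈ Wᶜ := hw
      rw [Set.indicator_of_mem hw']
      linarith
  · have h2 : |a y - m| ≤ e := by
      push Not at hy
      exact hy.le
    have := mul_le_mul_of_nonneg_right h2 (hq0 y)
    linarith

theorem DTV_KB (D : Dyn) (ch : ℝ → ℝ) (A : Prm) (R : ℝ) (f : ℍ → ℝ) :
    KB D ch A R f = stZ (fun p => -(thP D f R (A.tu R) p)) (ub D ch A R) := by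
  funext p q
  unfold KB stZ
  congr 2
  push_cast
  ring

theorem DTV_cont (h : ℍ → ℝ) (hl : ∃ L : ℝ, ∀ z w, |h z - h w| ≤ L * dist z w) : Continuous h := by
  obtain ⟨L, hL⟩ := hl
  have h1 : LipschitzWith (max L 0).toNNReal h := by
    apply LipschitzWith.of_dist_le_mul
    intro z w
    rw [Real.coe_toNNReal _ (le_max_right _ _), Real.dist_eq]
    exact (hL z w).trans (mul_le_mul_of_nonneg_right (le_max_left _ _) dist_nonneg)
  exact h1.continuous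

theorem DTV_contD (φ : ℍ → ℝ) (h : QU.CD ∞ φ) : Continuous φ := by
  have h1 : ContinuousOn (QU.onC φ) {w : ℂ | 0 < w.im} := h.continuousOn
  have h2 : Continuous (fun z : ℍ => QU.onC φ (z : ℂ)) :=
    h1.comp_continuous UpperHalfPlane.continuous_coe (fun z => z.im_pos)
  have h3 : (fun z : ℍ => QU.onC φ (z : ℂ)) = φ := by
    funext z
    simp only [QU.onC, ofComplex_apply]
  rwa [h3] at h2

theorem DTV_av (D : Dyn) (h : ℍ → ℝ) (h01 : ∀ z, 0 ≤ h z ∧ h z ≤ 1) (t : ℝ) (ht : 0 < t) (p : SL(2, ℝ) × ℝ) :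
    0 ≤ avP D h t p ∧ avP D h t p ≤ 1 := by
  have h2 : 0 ≤ ∫ s in (0 : ℝ)..t, h (D.fl p.2 s p.1 • I) := intervalIntegral.integral_nonneg ht.le fun s _ => (h01 _).1
  have h3 : ‖∫ s in (0 : ℝ)..t, h (D.fl p.2 s p.1 • I)‖ ≤ 1 * |t - 0| := by
    apply intervalIntegral.norm_integral_le_of_norm_le_const
    intro x _
    rw [Real.norm_eq_abs, abs_of_nonneg (h01 _).1]
    exact (h01 _).2
  rw [Real.norm_eq_abs, abs_of_nonneg h2, sub_zero, abs_of_pos ht, one_mul] at h3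
  unfold avP
  constructor
  · positivity
  · rw [inv_mul_le_iff₀ ht]
    linarith

/-- the mass of the bad set -/
theorem DTV_bad (hKO1 : RPQ.KO1_stmt) (hKO2 : RPQ.KO2_stmt) (hKPZ : KPZ_stmt) (hKSZ : KSZ_stmt) (hOWZ : OWZ_stmt)
    (Γ : Subgroup SL(2, ℝ)) (F : Set ℍ) (ch : ℝ → ℝ) (R : ℝ) (hPS : PS Γ (SL(2, ℝ) × ℝ) (mW R) (DW F) dW)
    (D : Dyn) (A : Prm) (f : ℍ → ℝ) (Q : SL(2, ℝ) × ℝ → ℂ) (S : Set (SL(2, ℝ) × ℝ)) (hS : MeasurableSet S) (hSI : InvS Γ S)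
    (hKZ : KZ Γ dW (KB D ch A R f)) (hQ : Measurable Q) (N δ K : ℝ) (b L n : ℕ) (hL : 1 ≤ L) (hN : 0 < N) (hδ : 0 < δ)
    (hq : ∫⁻ p in DW F, ‖Q p‖ₑ ^ 2 ∂mW R ≤ ENNReal.ofReal N)
    (hT : ∀ T : Lp ℂ 2 ((mW R).restrict (DW F)) →L[ℂ] Lp ℂ 2 ((mW R).restrict (DW F)),
      IsOp ((mW R).restrict (DW F)) (perZ Γ (KB D ch A R f)) T → ‖T‖ ≤ 1 + δ ∧
      ∀ Φ : Lp ℂ 2 ((mW R).restrict (DW F)), (Φ : SL(2, ℝ) × ℝ → ℂ) =ᵐ[(mW R).restrict (DW F)] Q → ‖T Φ - Φ‖ ^ 2 ≤ δ ^ 2 * N)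
    (hDTZ : ∀ (H : Type) [NormedAddCommGroup H] [InnerProductSpace ℂ H] [CompleteSpace H] (T P : H →L[ℂ] H) (Φ : H),
      ‖T‖ ≤ 1 + δ → OProj P → ‖Φ‖ ≤ 1 + δ → ‖T Φ - Φ‖ ≤ δ → (∀ l ∈ AdZ b L n, ‖wrd T P l‖ ≤ δ) → ‖P Φ‖ ^ 2 ≤ K)
    (hW : ∀ l ∈ AdZ b L n, HSv Γ ch D A R F f S l ≤ ENNReal.ofReal (δ ^ 2)) :
    ∫ p in S, ‖Q p‖ ^ 2 ∂((mW R).restrict (DW F)) ≤ K * N := by
  have hfin : IsFiniteMeasure ((mW R).restrict (DW F)) := ⟨by rw [Measure.restrict_apply_univ]; exact hPS.fin⟩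
  obtain ⟨hp1, hp2, -, -⟩ := (hKPZ Γ (SL(2, ℝ) × ℝ) (mW R) (DW F) dW hPS).1 _ hKZ
  obtain ⟨⟨T, hTo⟩, -⟩ := hKO1 _ ((mW R).restrict (DW F)) _ hp1 hp2
  obtain ⟨hTn, hTf⟩ := hT T hTo
  obtain ⟨-, -, hk3, -, hk5⟩ := hKO2 _ ((mW R).restrict (DW F))
  obtain ⟨P, hP⟩ := hk3 (S.indicator (fun _ => (1 : ℂ))) (measurable_const.indicator hS) ⟨1, fun g => by
    by_cases hg : g ∈ S
    · rw [Set.indicator_of_mem hg, norm_one]
    · rw [Set.indicator_of_notMem hg, norm_zero]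
      exact zero_le_one⟩
  obtain ⟨hPO, hPn⟩ := hk5 _ P hS hP
  have henorm : ∀ p, ‖Q p‖ₑ ^ 2 = ENNReal.ofReal (‖Q p‖ ^ 2) := by
    intro p
    rw [ENNReal.ofReal_pow (norm_nonneg _), ofReal_norm]
  have hmem : MemLp Q 2 ((mW R).restrict (DW F)) := by
    refine ⟨hQ.aestronglyMeasurable, ?_⟩
    rw [eLpNorm_lt_top_iff_lintegral_rpow_enorm_lt_top (by norm_num) (by norm_num)]
    have e1 : (2 : ENNReal).toReal = 2 := by norm_num
    rw [e1]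
    refine lt_of_le_of_lt (le_of_eq ?_) (lt_of_le_of_lt hq ENNReal.ofReal_lt_top)
    refine lintegral_congr fun p => ?_
    rw [← ENNReal.rpow_natCast]
    norm_num
  have hΦe := hmem.coeFn_toLp
  have hfx := hTf _ hΦe
  have hqi : Integrable (fun p => ‖Q p‖ ^ 2) ((mW R).restrict (DW F)) := by
    refine ⟨(hQ.norm.pow_const 2).aestronglyMeasurable, ?_⟩
    rw [hasFiniteIntegral_iff_ofReal (Eventually.of_forall fun p => by positivity)]
    refine lt_of_le_of_lt (le_of_eq ?_) (lt_of_le_of_lt hq ENNReal.ofReal_lt_top)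
    exact lintegral_congr fun p => (henorm p).symm
  have hq1 : ∫ p, ‖Q p‖ ^ 2 ∂((mW R).restrict (DW F)) ≤ N := by
    rw [← ENNReal.ofReal_le_ofReal_iff hN.le, ofReal_integral_eq_lintegral_ofReal hqi (Eventually.of_forall fun p => by positivity)]
    refine le_trans (le_of_eq ?_) hq
    exact lintegral_congr fun p => (henorm p).symm
  have hΦ0 : ‖hmem.toLp _‖ ^ 2 ≤ N := by
    rw [RPQ.KO_norm]
    refine le_trans (le_of_eq ?_) hq1
    refine integral_congr_ae ?_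
    filter_upwards [hΦe] with g hg
    rw [hg]
  set c : ℝ := (Real.sqrt N)⁻¹ with hc
  have hc0 : 0 < c := inv_pos.2 (Real.sqrt_pos.2 hN)
  have hcc : c ^ 2 * N = 1 := by
    rw [hc, inv_pow, Real.sq_sqrt hN.le]
    exact inv_mul_cancel₀ hN.ne'
  have hcn : ‖((c : ℝ) : ℂ)‖ = c := by rw [Complex.norm_real, Real.norm_eq_abs, abs_of_pos hc0]
  have hmain := hDTZ _ T P (((c : ℝ) : ℂ) • hmem.toLp _) hTn hPO ?_ ?_ ?_
  · -- conclusion
    rw [map_smul, norm_smul, mul_pow, hcn, hPn] at hmain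
    have e1 : ∫ y in S, ‖(hmem.toLp _ : SL(2, ℝ) × ℝ → ℂ) y‖ ^ 2 ∂((mW R).restrict (DW F)) =
        ∫ y in S, ‖Q y‖ ^ 2 ∂((mW R).restrict (DW F)) := by
      refine integral_congr_ae ?_
      filter_upwards [ae_restrict_of_ae hΦe] with g hg
      rw [hg]
    rw [e1] at hmain
    calc ∫ p in S, ‖Q p‖ ^ 2 ∂((mW R).restrict (DW F)) = (c ^ 2 * ∫ p in S, ‖Q p‖ ^ 2 ∂((mW R).restrict (DW F))) * N := by
          rw [mul_comm (c ^ 2), mul_assoc, hcc, mul_one]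
      _ ≤ K * N := mul_le_mul_of_nonneg_right hmain hN.le
  · -- the norm
    rw [norm_smul, hcn]
    have h1 : (c * ‖hmem.toLp _‖) ^ 2 ≤ 1 := by
      rw [mul_pow]
      calc c ^ 2 * ‖hmem.toLp _‖ ^ 2 ≤ c ^ 2 * N := mul_le_mul_of_nonneg_left hΦ0 (by positivity)
        _ = 1 := hcc
    have h1' : (c * ‖hmem.toLp _‖) ^ 2 ≤ 1 ^ 2 := by
      rw [one_pow]
      exact h1
    have h2 := (abs_le_of_sq_le_sq' h1' zero_le_one).2
    linarith
  · -- nearly fixed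
    have e1 : T (((c : ℝ) : ℂ) • hmem.toLp _) - ((c : ℝ) : ℂ) • hmem.toLp _ = ((c : ℝ) : ℂ) • (T (hmem.toLp _) - hmem.toLp _) := by
      rw [map_smul, smul_sub]
    rw [e1, norm_smul, hcn]
    have h1 : (c * ‖T (hmem.toLp _) - hmem.toLp _‖) ^ 2 ≤ δ ^ 2 := by
      rw [mul_pow]
      calc c ^ 2 * ‖T (hmem.toLp _) - hmem.toLp _‖ ^ 2 ≤ c ^ 2 * (δ ^ 2 * N) := mul_le_mul_of_nonneg_left hfx (by positivity)
        _ = δ ^ 2 * (c ^ 2 * N) := by ring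
        _ = δ ^ 2 := by rw [hcc, mul_one]
    exact (abs_le_of_sq_le_sq' h1 hδ.le).2
  · -- words
    intro l hl
    have hne : l ≠ [] := by
      obtain ⟨c', hc1, -, hc3⟩ := hl
      intro h0
      rw [h0] at hc3
      have : c' = [] := List.map_eq_nil_iff.1 hc3.symm
      rw [this, List.length_nil] at hc1
      omega
    have h1 := hOWZ Γ (SL(2, ℝ) × ℝ) (mW R) (DW F) dW hPS (KB D ch A R f) S hKZ hS hSI T P hTo hP l hne
    have hZ := ((hKSZ Γ (SL(2, ℝ) × ℝ) (mW R) (DW F) dW hPS).2 (KB D ch A R f) S hKZ hS hSI).2 l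
    obtain ⟨hq1', hq2', -, -⟩ := (hKPZ Γ (SL(2, ℝ) × ℝ) (mW R) (DW F) dW hPS).1 _ hZ
    have h3 := RPQ.DET_ws (μ := (mW R).restrict (DW F)) _ hq1' hq2'
    have h4 : (∫ x in DW F, ∫ y in DW F, ‖perZ Γ (wdZ (mW R) (KB D ch A R f) S l) x y‖ ^ 2 ∂mW R ∂mW R) ≤ δ ^ 2 := by
      refine (ENNReal.ofReal_le_ofReal_iff (by positivity)).1 ?_
      rw [h3]
      exact hW l hl
    exact (abs_le_of_sq_le_sq' (h1.trans h4) hδ.le).2

theorem DTV_proof (hI2 : I2_stmt) (hI3 : I3_stmt) (hI4 : I4_stmt) (hI8 : I8_stmt) (hDTZ : DTZ_stmt) (hOWZ : OWZ_stmt)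
    (hKSZ : KSZ_stmt) (hKPZ : KPZ_stmt) (hPSC : PSC_stmt) (hMTV : MTV_stmt) (hQFM : QFM_stmt) (hKO1 : RPQ.KO1_stmt)
    (hKO2 : RPQ.KO2_stmt) (hGFD : GFD_stmt) : DTV_stmt := by
  intro Γ F ch hΓ hF hch
  obtain ⟨δ2, C2, hδ2, hC2, hI2⟩ := hI2 Γ ch hΓ hch
  obtain ⟨δ3, C3, hδ3, hC3, hI3⟩ := hI3 Γ ch hΓ hch
  obtain ⟨δ4, C4, hδ4, hC4, hI4⟩ := hI4 Γ ch hΓ hch
  obtain ⟨δ8, C8, hδ8, hC8, hI8⟩ := hI8 Γ ch hΓ hch
  obtain ⟨δM, hδM, hM⟩ := hMTV Γ hΓ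
  obtain ⟨δ0, hδ0, hδ02, hδ03, hδ04, hδ08, hδ0M⟩ : ∃ δ0 : ℝ, 0 < δ0 ∧ δ0 ≤ δ2 ∧ δ0 ≤ δ3 ∧ δ0 ≤ δ4 ∧ δ0 ≤ δ8 ∧ δ0 ≤ δM := by
    refine ⟨min δ2 (min δ3 (min δ4 (min δ8 δM))), lt_min hδ2 (lt_min hδ3 (lt_min hδ4 (lt_min hδ8 hδM))), min_le_left _ _, ?_, ?_, ?_, ?_⟩
    · exact (min_le_right _ _).trans (min_le_left _ _)
    · exact (min_le_right _ _).trans ((min_le_right _ _).trans (min_le_left _ _))
    · exact (min_le_right _ _).trans ((min_le_right _ _).trans ((min_le_right _ _).trans (min_le_left _ _)))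
    · exact (min_le_right _ _).trans ((min_le_right _ _).trans ((min_le_right _ _).trans (min_le_right _ _)))
  obtain ⟨C, hC1, hCC2, hCC3, hCC4, hCC8⟩ : ∃ C : ℝ, 1 ≤ C ∧ C2 ≤ C ∧ C3 ≤ C ∧ C4 ≤ C ∧ C8 ≤ C :=
    ⟨C2 + C3 + C4 + C8, by linarith, by linarith, by linarith, by linarith, by linarith⟩
  refine ⟨δ0, C, hδ0, hC1, fun B A h e b L n hA hh he hb hL hn => ?_⟩
  obtain ⟨d2, R2, hd2, hR2, hI2⟩ := hI2 B A (DTV_adm hA hCC2 hC2)
  obtain ⟨d3, R3, hd3, hR3, hI3⟩ := hI3 B A (DTV_adm hA hCC3 hC3)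
  obtain ⟨d4, R4, hd4, hR4, hI4⟩ := hI4 B A (DTV_adm hA hCC4 hC4)
  obtain ⟨d8, R8, hd8, hR8, hI8⟩ := hI8 B A h (DTV_adm hA hCC8 hC8) hh
  obtain ⟨δD, hδD, hDT⟩ := hDTZ e b L n he hb hL hn
  obtain ⟨T2, hT2⟩ := DTV_small d2 δD hd2 hδD
  obtain ⟨T3, hT3⟩ := DTV_small d3 (δD ^ 2) hd3 (by positivity)
  obtain ⟨T3', hT3'⟩ := DTV_small d3 (e / 4) hd3 (by positivity)
  obtain ⟨T8, hT8⟩ := DTV_small d8 (e / 4) hd8 (by positivity)
  obtain ⟨R0, r0, r2, r3, r4, r8, t2, t3, t3', t8⟩ : ∃ R0 : ℝ, 2 ≤ R0 ∧ R2 ≤ R0 ∧ R3 ≤ R0 ∧ R4 ≤ R0 ∧ R8 ≤ R0 ∧ T2 ≤ R0 ∧ T3 ≤ R0 ∧ T3' ≤ R0 ∧ T8 ≤ R0 := by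
    refine ⟨2 + |R2| + |R3| + |R4| + |R8| + |T2| + |T3| + |T3'| + |T8|, ?_, ?_, ?_, ?_, ?_, ?_, ?_, ?_, ?_⟩ <;>
    linarith [abs_nonneg R2, abs_nonneg R3, abs_nonneg R4, abs_nonneg R8, abs_nonneg T2, abs_nonneg T3, abs_nonneg T3', abs_nonneg T8,
      le_abs_self R2, le_abs_self R3, le_abs_self R4, le_abs_self R8, le_abs_self T2, le_abs_self T3, le_abs_self T3', le_abs_self T8]
  refine ⟨δD, R0, hδD, by linarith, ?_⟩
  intro R D f F' μ φ hR hD hE hWd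
  have hRpos : 0 < R := by linarith
  have hPS := hPSC Γ F R hΓ hF
  have hfin : IsFiniteMeasure ((mW R).restrict (DW F)) := ⟨by rw [Measure.restrict_apply_univ]; exact hPS.fin⟩
  have htau : 0 < A.tu R := by
    unfold Prm.tu Prm.sg
    have h1 := Real.log_pos (show (1 : ℝ) < R by linarith)
    have h2 : (0 : ℝ) < A.m := by
      have := hA.m
      exact_mod_cast this
    have h3 := hA.e3
    positivity
  have hUc : Continuous D.U := DTV_contD _ hD.pot.smooth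
  have hφc : Continuous φ := INB_cont φ hE.eig.1
  have hhc : Continuous h := DTV_cont h hh.lip
  have hQm : Measurable (QF D.U ch A.z R φ) := hQFM D.U ch A.z R φ hUc hch hφc
  obtain ⟨m1, m2, -, -, -, -⟩ := hM B D F f R (A.tu R) e (DTV_okd hD hδ0M) hF hE.sm.inv
  obtain ⟨-, -, m3, m4, m5, m6⟩ := hM B D F h R (A.tu R) e (DTV_okd hD hδ0M) hF hh.inv
  have hnn0 : 0 ≤ nn F φ := integral_nonneg fun z => by positivity
  obtain ⟨q1, q2, q3⟩ := hI3 R D F f F' μ φ (r3.trans hR) (DTV_okd hD hδ03) hF hE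
  have hKZ : KZ Γ dW (KB D ch A R f) := by
    rw [DTV_KB]
    exact (hKSZ Γ (SL(2, ℝ) × ℝ) (mW R) (DW F) dW hPS).1 _ _ m1.neg (fun γ y => by rw [m2]) (hI4 R D (r4.trans hR) (DTV_okd hD hδ04)).1
  have henorm : ∀ p, ‖QF D.U ch A.z R φ p‖ₑ ^ 2 = ENNReal.ofReal (‖QF D.U ch A.z R φ p‖ ^ 2) := by
    intro p
    rw [ENNReal.ofReal_pow (norm_nonneg _), ofReal_norm]
  have hqi : Integrable (fun p => ‖QF D.U ch A.z R φ p‖ ^ 2) ((mW R).restrict (DW F)) := by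
    refine ⟨(hQm.norm.pow_const 2).aestronglyMeasurable, ?_⟩
    rw [hasFiniteIntegral_iff_ofReal (Eventually.of_forall fun p => by positivity)]
    refine lt_of_le_of_lt (le_of_eq ?_) (lt_of_le_of_lt q1 ENNReal.ofReal_lt_top)
    exact lintegral_congr fun p => (henorm p).symm
  have hQ1 : ∫ p, ‖QF D.U ch A.z R φ p‖ ^ 2 ∂((mW R).restrict (DW F)) ≤ nn F φ := by
    rw [← ENNReal.ofReal_le_ofReal_iff hnn0, ofReal_integral_eq_lintegral_ofReal hqi (Eventually.of_forall fun p => by positivity)]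
    refine le_trans (le_of_eq ?_) q1
    exact lintegral_congr fun p => (henorm p).symm
  -- the window
  have hWm : MeasurableSet {p : SL(2, ℝ) × ℝ | |p.2| ≤ R ^ (-(1 / 4) : ℝ)} :=
    measurableSet_le (continuous_abs.measurable.comp measurable_snd) measurable_const
  have hPW : {p : SL(2, ℝ) × ℝ | |p.2| ≤ R ^ (-(1 / 4) : ℝ)} ∩ DW F = PW F 1 R := by
    ext p
    simp only [PW, DW, Wi, Set.mem_inter_iff, Set.mem_ofPred_eq, Set.mem_prod, Set.mem_univ, and_true, Set.mem_Icc, one_mul, abs_le]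
    exact and_comm
  have hW1 : (1 - R ^ (-d3)) * nn F φ ≤ ∫ p in {p : SL(2, ℝ) × ℝ | |p.2| ≤ R ^ (-(1 / 4) : ℝ)}, ‖QF D.U ch A.z R φ p‖ ^ 2 ∂((mW R).restrict (DW F)) := by
    by_cases hneg : 0 ≤ ∫ p in {p : SL(2, ℝ) × ℝ | |p.2| ≤ R ^ (-(1 / 4) : ℝ)}, ‖QF D.U ch A.z R φ p‖ ^ 2 ∂((mW R).restrict (DW F))
    · rw [← ENNReal.ofReal_le_ofReal_iff hneg, ofReal_integral_eq_lintegral_ofReal hqi.integrableOn (Eventually.of_forall fun p => by positivity)]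
      refine q2.trans (le_of_eq ?_)
      rw [Measure.restrict_restrict hWm, hPW]
      exact lintegral_congr fun p => henorm p
    · exact absurd (integral_nonneg fun p => by positivity) hneg
  have hW2 : ∫ p in {p : SL(2, ℝ) × ℝ | |p.2| ≤ R ^ (-(1 / 4) : ℝ)}ᶜ, ‖QF D.U ch A.z R φ p‖ ^ 2 ∂((mW R).restrict (DW F)) ≤ R ^ (-d3) * nn F φ := by
    have h1 := integral_add_compl hWm hqi
    linarith
  -- the bad set
  have hx0 : (0 : ℝ) ≤ (2 * L + 1) / n := by positivity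
  have hBad : ∫ p in SB D F h e (A.tu R) R, ‖QF D.U ch A.z R φ p‖ ^ 2 ∂((mW R).restrict (DW F)) ≤ ((2 * L + 1) / n + e) * nn F φ := by
    rcases hnn0.eq_or_lt with h0 | h0
    · rw [← h0, mul_zero]
      rw [← h0] at hQ1
      exact (setIntegral_le_integral hqi (Eventually.of_forall fun p => by positivity)).trans hQ1
    · refine DTV_bad hKO1 hKO2 hKPZ hKSZ hOWZ Γ F ch R hPS D A f (QF D.U ch A.z R φ) (SB D F h e (A.tu R) R) m5 m6 hKZ hQm (nn F φ) δD _ b L n hL h0 hδD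
        q1 ?_ (fun H _ _ _ T P Φ => hDT H T P Φ) hWd
      intro T hT
      refine ⟨?_, fun Φ hΦ => ?_⟩
      · refine (hI2 R D F f (r2.trans hR) (DTV_okd hD hδ02) hF hE.sm T hT).trans ?_
        have := hT2 R (t2.trans hR)
        linarith
      · exact (q3 T hT Φ hΦ).trans (mul_le_mul_of_nonneg_right (hT3 R (t3.trans hR)) hnn0)
  -- the mean
  have hvol : volume F < ⊤ := by
    rw [← (hGFD Γ F hΓ hF).1.2.1]
    exact (hGFD Γ F hΓ hF).1.2.2.1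
  have hmn := RPQ.DET_mean F hvol h hhc hh.bd
  have hms := DTV_mass (μ := (mW R).restrict (DW F)) (avP D h (A.tu R)) (fun p => ‖QF D.U ch A.z R φ p‖ ^ 2) m3 hqi (mean F h) e
    (fun p => by positivity) (fun p => by
      have h1 := DTV_av D h hh.bd (A.tu R) htau p
      rw [abs_le]
      constructor
      · linarith [hmn.2]
      · linarith [hmn.1]) he.le (SB D F h e (A.tu R) R) {p : SL(2, ℝ) × ℝ | |p.2| ≤ R ^ (-(1 / 4) : ℝ)} m5 hWm (fun p hp => hp)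
  have h8 := hI8 R D F f F' μ φ (r8.trans hR) (DTV_okd hD hδ08) hF hE
  have s3 := hT3' R (t3'.trans hR)
  have s8 := hT8 R (t8.trans hR)
  have p3 : 0 < R ^ (-d3) := Real.rpow_pos_of_pos hRpos _
  have hlow : (1 - R ^ (-d3)) * nn F φ ≤ ∫ p, ‖QF D.U ch A.z R φ p‖ ^ 2 ∂((mW R).restrict (DW F)) :=
    hW1.trans (setIntegral_le_integral hqi (Eventually.of_forall fun p => by positivity))
  set Qt := ∫ p, ‖QF D.U ch A.z R φ p‖ ^ 2 ∂((mW R).restrict (DW F)) with hQt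
  set X := ∫ p, avP D h (A.tu R) p * ‖QF D.U ch A.z R φ p‖ ^ 2 ∂((mW R).restrict (DW F)) with hX
  have g1 := abs_le.1 hms
  have g2 := abs_le.1 h8
  have g3 : |mean F h * Qt - mean F h * nn F φ| ≤ R ^ (-d3) * nn F φ := by
    have e1 : mean F h * Qt - mean F h * nn F φ = mean F h * (Qt - nn F φ) := by ring
    rw [e1, abs_mul, abs_of_nonneg hmn.1]
    refine (mul_le_of_le_one_left (abs_nonneg _) hmn.2).trans ?_
    rw [abs_le]
    constructor <;> nlinarith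
  have g4 := abs_le.1 g3
  have g5 : e * Qt ≤ e * nn F φ := mul_le_mul_of_nonneg_left hQ1 he.le
  have g6 : R ^ (-d3) * nn F φ ≤ e / 4 * nn F φ := mul_le_mul_of_nonneg_right s3 hnn0
  have g7 : R ^ (-d8) * nn F φ ≤ e / 4 * nn F φ := mul_le_mul_of_nonneg_right s8 hnn0
  have g8 : (3 * e + (2 * L + 1) / n) * nn F φ = e * nn F φ + ((2 * L + 1) / n + e) * nn F φ + e * nn F φ := by ring
  have g9 : 0 ≤ e * nn F φ := mul_nonneg he.le hnn0
  rw [g8, abs_le]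
  constructor <;> linarith

end Pool.Agent.VQ
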